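import Pool.Agent.H160R2.HF.Hoffman

/-!
# Integral selections of the edges of a bipartite graph with coloured edges
-/

set_option autoImplicit false
set_option linter.unusedSectionVars false

namespace Pool.Agent.Run7.h320.T

open Finset Pool.Agent.H160R2.HF

section Circ
variable {V E : Type*} [Fintype V] [Fintype E] [DecidableEq V] [DecidableEq E]

/-- net outflow with values in a ring -/
def nt {R : Type*} [CommRing R] (t h : E → V) (g : E → R) (v : V) : R :=
  (∑ e, if t e = v then g e else 0) - ∑ e, if h e = v then g e else 0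

theorem nt_eq_net (t h : E → V) (g : E → ℤ) (v : V) : nt t h g v = net t h g v := by
  unfold nt net
  rw [sum_filter, sum_filter]

/-- a real circulation with integral bounds can be replaced by an integral one -/
theorem circ (t h : E → V) (lo hi : E → ℤ) (x : E → ℝ) (h1 : ∀ e, (lo e : ℝ) ≤ x e)
    (h2 : ∀ e, x e ≤ (hi e : ℝ)) (h0 : ∀ v, nt t h x v = 0) :
    ∃ g : E → ℤ, (∀ e, lo e ≤ g e ∧ g e ≤ hi e) ∧ ∀ v, nt t h g v = 0 := by
  have hle : ∀ e, lo e ≤ hi e := by
    intro e
    have := (h1 e).trans (h2 e)
    exact_mod_cast this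
  obtain ⟨g, hg1, hg2⟩ := hoffman t h lo hi (fun _ => 0) hle (by simp) (by
    intro X
    unfold ff
    rw [sum_const_zero, zero_add]
    have h3 : ∑ v ∈ X, nt t h x v = 0 := sum_eq_zero fun v _ => h0 v
    have h4 : ∑ v ∈ X, nt t h x v =
        ∑ e, ((if t e ∈ X then x e else 0) - (if h e ∈ X then x e else 0)) := by
      unfold nt
      rw [sum_sub_distrib, sum_sub_distrib, sum_comm, sum_comm (s := X)]
      congr 1
      · exact sum_congr rfl fun e _ => by simp
      · exact sum_congr rfl fun e _ => by simp
    rw [h4] at h3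
    have h5 : (0 : ℝ) ≤ ((∑ e, ce t h lo hi X e : ℤ) : ℝ) := by
      have h6 : ∀ e, -((if t e ∈ X then x e else 0) - (if h e ∈ X then x e else 0)) ≤
          ((ce t h lo hi X e : ℤ) : ℝ) := by
        intro e
        unfold ce
        have a1 := h1 e
        have a2 := h2 e
        by_cases b1 : t e ∈ X <;> by_cases b2 : h e ∈ X <;> simp [b1, b2] <;> linarith
      have h7 := sum_le_sum fun e (_ : e ∈ (univ : Finset E)) => h6 e
      rw [sum_neg_distrib, h3, neg_zero] at h7
      push_cast
      exact h7
    exact_mod_cast h5)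
  exact ⟨g, hg1, fun v => by rw [nt_eq_net]; exact hg2 v⟩

end Circ

section Net
variable {A C ι : Type} [Fintype A] [Fintype C] [Fintype ι] [DecidableEq A] [DecidableEq C]
  [DecidableEq ι]

/-- nodes of the network -/
abbrev Nd (A C : Type) := Unit ⊕ A ⊕ A ⊕ (A × C)

/-- arcs of the network -/
abbrev Ar (A C ι : Type) := A ⊕ A ⊕ (A × C) ⊕ ι

def nO : Nd A C := Sum.inl ()
def nT (a : A) : Nd A C := Sum.inr (Sum.inl a)
def nN (a : A) : Nd A C := Sum.inr (Sum.inr (Sum.inl a))
def nK (a : A) (c : C) : Nd A C := Sum.inr (Sum.inr (Sum.inr (a, c)))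

/-- the parent of the node of the pair -/
def pa (nv : A → C → Bool) (a : A) (c : C) : Nd A C := if nv a c then nN a else nT a

/-- tails; the left ends of arcs when the side is `false` -/
def tl (s : A → Bool) (nv : A → C → Bool) (a0 a1 : ι → A) (col : ι → C) : Ar A C ι → Nd A C
  | Sum.inl a => if s a then nT a else nO
  | Sum.inr (Sum.inl a) => if s a then nN a else nT a
  | Sum.inr (Sum.inr (Sum.inl ac)) => if s ac.1 then nK ac.1 ac.2 else pa nv ac.1 ac.2
  | Sum.inr (Sum.inr (Sum.inr e)) => nK (a0 e) (col e)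

/-- heads -/
def hd (s : A → Bool) (nv : A → C → Bool) (a0 a1 : ι → A) (col : ι → C) : Ar A C ι → Nd A C
  | Sum.inl a => if s a then nO else nT a
  | Sum.inr (Sum.inl a) => if s a then nT a else nN a
  | Sum.inr (Sum.inr (Sum.inl ac)) => if s ac.1 then pa nv ac.1 ac.2 else nK ac.1 ac.2
  | Sum.inr (Sum.inr (Sum.inr e)) => nK (a1 e) (col e)

variable {R : Type*} [CommRing R] (s : A → Bool) (nv : A → C → Bool) (a0 a1 : ι → A)
  (col : ι → C) (g : Ar A C ι → R)

/-- the flow on the arcs of a vertex -/
theorem nt_split (v : Nd A C) : nt (tl s nv a0 a1 col) (hd s nv a0 a1 col) g v =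
    (∑ a, ((if (if s a then nT a else nO) = v then g (Sum.inl a) else 0) -
      (if (if s a then nO else nT a) = v then g (Sum.inl a) else 0))) +
    (∑ a, ((if (if s a then nN a else nT a) = v then g (Sum.inr (Sum.inl a)) else 0) -
      (if (if s a then nT a else nN a) = v then g (Sum.inr (Sum.inl a)) else 0))) +
    (∑ a, ∑ c, ((if (if s a then nK a c else pa nv a c) = v then
        g (Sum.inr (Sum.inr (Sum.inl (a, c)))) else 0) -
      (if (if s a then pa nv a c else nK a c) = v then
        g (Sum.inr (Sum.inr (Sum.inl (a, c)))) else 0))) +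
    (∑ e, ((if nK (a0 e) (col e) = v then g (Sum.inr (Sum.inr (Sum.inr e))) else 0) -
      (if nK (a1 e) (col e) = v then g (Sum.inr (Sum.inr (Sum.inr e))) else 0))) := by
  unfold nt
  simp only [Fintype.sum_sum_type, tl, hd, Fintype.sum_prod_type, sum_sub_distrib]
  have key : ∀ a b c d e f g' h : R, (a + (b + (c + d))) - (e + (f + (g' + h))) =
      a - e + (b - f) + (c - g') + (d - h) := by
    intros
    ring
  exact key _ _ _ _ _ _ _ _

theorem nt_T (a : A) : nt (tl s nv a0 a1 col) (hd s nv a0 a1 col) g (nT a) =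
    (if s a then (1 : R) else -1) * (g (Sum.inl a) - g (Sum.inr (Sum.inl a)) -
      ∑ c, if nv a c then 0 else g (Sum.inr (Sum.inr (Sum.inl (a, c))))) := by
  rw [nt_split]
  have e1 : (∑ b, ((if (if s b then nT b else nO) = (nT a : Nd A C) then g (Sum.inl b) else 0) -
      (if (if s b then nO else nT b) = (nT a : Nd A C) then g (Sum.inl b) else 0))) =
      (if s a then (1 : R) else -1) * g (Sum.inl a) := by
    rw [sum_eq_single a]
    · by_cases h : s a <;> simp [h, nT, nO]
    · intro b _ hb
      by_cases h : s b <;> simp [h, nT, nO, hb]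
    · intro h
      exact absurd (mem_univ a) h
  have e2 : (∑ b, ((if (if s b then nN b else nT b) = (nT a : Nd A C) then
        g (Sum.inr (Sum.inl b)) else 0) -
      (if (if s b then nT b else nN b) = (nT a : Nd A C) then g (Sum.inr (Sum.inl b)) else 0))) =
      (if s a then (1 : R) else -1) * (-g (Sum.inr (Sum.inl a))) := by
    rw [sum_eq_single a]
    · by_cases h : s a <;> simp [h, nT, nN]
    · intro b _ hb
      by_cases h : s b <;> simp [h, nT, nN, hb]
    · intro h
      exact absurd (mem_univ a) h
  have e3 : (∑ b, ∑ c, ((if (if s b then nK b c else pa nv b c) = (nT a : Nd A C) then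
        g (Sum.inr (Sum.inr (Sum.inl (b, c)))) else 0) -
      (if (if s b then pa nv b c else nK b c) = (nT a : Nd A C) then
        g (Sum.inr (Sum.inr (Sum.inl (b, c)))) else 0))) =
      (if s a then (1 : R) else -1) *
        (-∑ c, if nv a c then 0 else g (Sum.inr (Sum.inr (Sum.inl (a, c))))) := by
    rw [sum_eq_single a]
    · rw [← sum_neg_distrib, mul_sum]
      apply sum_congr rfl
      intro c _
      by_cases h : s a <;> by_cases h' : nv a c <;> simp [h, h', nT, nN, nK, pa]
    · intro b _ hb
      apply sum_eq_zero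
      intro c _
      by_cases h : s b <;> by_cases h' : nv b c <;> simp [h, h', nT, nN, nK, pa, hb]
    · intro h
      exact absurd (mem_univ a) h
  have e4 : (∑ e, ((if nK (a0 e) (col e) = (nT a : Nd A C) then
        g (Sum.inr (Sum.inr (Sum.inr e))) else 0) -
      (if nK (a1 e) (col e) = (nT a : Nd A C) then g (Sum.inr (Sum.inr (Sum.inr e))) else 0))) =
      0 := by
    apply sum_eq_zero
    intro e _
    simp [nK, nT]
  rw [e1, e2, e3, e4]
  ring

theorem nt_N (a : A) : nt (tl s nv a0 a1 col) (hd s nv a0 a1 col) g (nN a) =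
    (if s a then (1 : R) else -1) * (g (Sum.inr (Sum.inl a)) -
      ∑ c, if nv a c then g (Sum.inr (Sum.inr (Sum.inl (a, c)))) else 0) := by
  rw [nt_split]
  have e1 : (∑ b, ((if (if s b then nT b else nO) = (nN a : Nd A C) then g (Sum.inl b) else 0) -
      (if (if s b then nO else nT b) = (nN a : Nd A C) then g (Sum.inl b) else 0))) = 0 := by
    apply sum_eq_zero
    intro b _
    by_cases h : s b <;> simp [h, nT, nO, nN]
  have e2 : (∑ b, ((if (if s b then nN b else nT b) = (nN a : Nd A C) then
        g (Sum.inr (Sum.inl b)) else 0) -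
      (if (if s b then nT b else nN b) = (nN a : Nd A C) then g (Sum.inr (Sum.inl b)) else 0))) =
      (if s a then (1 : R) else -1) * (g (Sum.inr (Sum.inl a))) := by
    rw [sum_eq_single a]
    · by_cases h : s a <;> simp [h, nT, nN]
    · intro b _ hb
      by_cases h : s b <;> simp [h, nT, nN, hb]
    · intro h
      exact absurd (mem_univ a) h
  have e3 : (∑ b, ∑ c, ((if (if s b then nK b c else pa nv b c) = (nN a : Nd A C) then
        g (Sum.inr (Sum.inr (Sum.inl (b, c)))) else 0) -
      (if (if s b then pa nv b c else nK b c) = (nN a : Nd A C) then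
        g (Sum.inr (Sum.inr (Sum.inl (b, c)))) else 0))) =
      (if s a then (1 : R) else -1) *
        (-∑ c, if nv a c then g (Sum.inr (Sum.inr (Sum.inl (a, c)))) else 0) := by
    rw [sum_eq_single a]
    · rw [← sum_neg_distrib, mul_sum]
      apply sum_congr rfl
      intro c _
      by_cases h : s a <;> by_cases h' : nv a c <;> simp [h, h', nT, nN, nK, pa]
    · intro b _ hb
      apply sum_eq_zero
      intro c _
      by_cases h : s b <;> by_cases h' : nv b c <;> simp [h, h', nT, nN, nK, pa, hb]
    · intro h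
      exact absurd (mem_univ a) h
  have e4 : (∑ e, ((if nK (a0 e) (col e) = (nN a : Nd A C) then
        g (Sum.inr (Sum.inr (Sum.inr e))) else 0) -
      (if nK (a1 e) (col e) = (nN a : Nd A C) then g (Sum.inr (Sum.inr (Sum.inr e))) else 0))) =
      0 := by
    apply sum_eq_zero
    intro e _
    simp [nK, nN]
  rw [e1, e2, e3, e4]
  ring

theorem nt_K (a : A) (c : C) : nt (tl s nv a0 a1 col) (hd s nv a0 a1 col) g (nK a c) =
    (if s a then (1 : R) else -1) * g (Sum.inr (Sum.inr (Sum.inl (a, c)))) +
    (∑ e, ((if a0 e = a ∧ col e = c then g (Sum.inr (Sum.inr (Sum.inr e))) else 0) -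
      (if a1 e = a ∧ col e = c then g (Sum.inr (Sum.inr (Sum.inr e))) else 0))) := by
  rw [nt_split]
  have e1 : (∑ b, ((if (if s b then nT b else nO) = (nK a c : Nd A C) then g (Sum.inl b) else 0) -
      (if (if s b then nO else nT b) = (nK a c : Nd A C) then g (Sum.inl b) else 0))) = 0 := by
    apply sum_eq_zero
    intro b _
    by_cases h : s b <;> simp [h, nT, nO, nK]
  have e2 : (∑ b, ((if (if s b then nN b else nT b) = (nK a c : Nd A C) then
        g (Sum.inr (Sum.inl b)) else 0) -
      (if (if s b then nT b else nN b) = (nK a c : Nd A C) then g (Sum.inr (Sum.inl b)) else 0))) =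
      0 := by
    apply sum_eq_zero
    intro b _
    by_cases h : s b <;> simp [h, nT, nN, nK]
  have e3 : (∑ b, ∑ d, ((if (if s b then nK b d else pa nv b d) = (nK a c : Nd A C) then
        g (Sum.inr (Sum.inr (Sum.inl (b, d)))) else 0) -
      (if (if s b then pa nv b d else nK b d) = (nK a c : Nd A C) then
        g (Sum.inr (Sum.inr (Sum.inl (b, d)))) else 0))) =
      (if s a then (1 : R) else -1) * g (Sum.inr (Sum.inr (Sum.inl (a, c)))) := by
    rw [sum_eq_single a]
    · rw [sum_eq_single c]
      · by_cases h : s a <;> by_cases h' : nv a c <;> simp [h, h', nT, nN, nK, pa]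
      · intro d _ hd
        by_cases h : s a <;> by_cases h' : nv a d <;> simp [h, h', nT, nN, nK, pa, hd]
      · intro h
        exact absurd (mem_univ c) h
    · intro b _ hb
      apply sum_eq_zero
      intro d _
      by_cases h : s b <;> by_cases h' : nv b d <;> simp [h, h', nT, nN, nK, pa, hb]
    · intro h
      exact absurd (mem_univ a) h
  rw [e1, e2, e3, zero_add, zero_add]
  congr 1
  apply sum_congr rfl
  intro e _
  simp [nK]

theorem nt_O : nt (tl s nv a0 a1 col) (hd s nv a0 a1 col) g nO =
    ∑ a, (if s a then (-1 : R) else 1) * g (Sum.inl a) := by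
  rw [nt_split]
  have e1 : ∀ b, ((if (if s b then nT b else nO) = (nO : Nd A C) then g (Sum.inl b) else 0) -
      (if (if s b then nO else nT b) = (nO : Nd A C) then g (Sum.inl b) else 0)) =
      (if s b then (-1 : R) else 1) * g (Sum.inl b) := by
    intro b
    by_cases h : s b <;> simp [h, nT, nO]
  have e2 : (∑ b, ((if (if s b then nN b else nT b) = (nO : Nd A C) then
        g (Sum.inr (Sum.inl b)) else 0) -
      (if (if s b then nT b else nN b) = (nO : Nd A C) then g (Sum.inr (Sum.inl b)) else 0))) =
      0 := by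
    apply sum_eq_zero
    intro b _
    by_cases h : s b <;> simp [h, nT, nN, nO]
  have e3 : (∑ b, ∑ d, ((if (if s b then nK b d else pa nv b d) = (nO : Nd A C) then
        g (Sum.inr (Sum.inr (Sum.inl (b, d)))) else 0) -
      (if (if s b then pa nv b d else nK b d) = (nO : Nd A C) then
        g (Sum.inr (Sum.inr (Sum.inl (b, d)))) else 0))) = 0 := by
    apply sum_eq_zero
    intro b _
    apply sum_eq_zero
    intro d _
    by_cases h : s b <;> by_cases h' : nv b d <;> simp [h, h', nT, nN, nK, nO, pa]
  have e4 : (∑ e, ((if nK (a0 e) (col e) = (nO : Nd A C) then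
        g (Sum.inr (Sum.inr (Sum.inr e))) else 0) -
      (if nK (a1 e) (col e) = (nO : Nd A C) then g (Sum.inr (Sum.inr (Sum.inr e))) else 0))) =
      0 := by
    apply sum_eq_zero
    intro e _
    simp [nK, nO]
  rw [e2, e3, e4, add_zero, add_zero, add_zero]
  exact sum_congr rfl fun b _ => e1 b

/-- incidence -/
def inc (a0 a1 : ι → A) (e : ι) (a : A) : Prop := a0 e = a ∨ a1 e = a

instance (a0 a1 : ι → A) (e : ι) (a : A) : Decidable (inc a0 a1 e a) := by
  unfold inc
  infer_instance

theorem nt_K' (h0 : ∀ e, s (a0 e) = false) (h1 : ∀ e, s (a1 e) = true) (a : A) (c : C) :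
    nt (tl s nv a0 a1 col) (hd s nv a0 a1 col) g (nK a c) =
    (if s a then (1 : R) else -1) * (g (Sum.inr (Sum.inr (Sum.inl (a, c)))) -
    ∑ e, (if inc a0 a1 e a ∧ col e = c then g (Sum.inr (Sum.inr (Sum.inr e))) else 0)) := by
  rw [nt_K, mul_sub, sub_eq_add_neg]
  congr 1
  rw [mul_sum, ← sum_neg_distrib]
  apply sum_congr rfl
  intro e _
  unfold inc
  have e0 := h0 e
  have e1 := h1 e
  by_cases hc : col e = c
  · by_cases ha : a0 e = a
    · have hs : s a = false := by rw [← ha]; exact e0
      have h2 : a1 e ≠ a := by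
        intro h
        rw [h, hs] at e1
        exact absurd e1 (by simp)
      simp [ha, h2, hc, hs]
    · by_cases ha' : a1 e = a
      · have hs : s a = true := by rw [← ha']; exact e1
        simp [ha, ha', hc, hs]
      · simp [ha, ha']
  · simp [hc]

theorem sum_swap {R : Type*} [CommRing R] (P : C → Prop) [DecidablePred P] (Q : ι → Prop)
    [DecidablePred Q] (col : ι → C) (x : ι → R) :
    (∑ c, if P c then ∑ e, (if Q e ∧ col e = c then x e else 0) else 0) =
      ∑ e, if Q e ∧ P (col e) then x e else 0 := by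
  have h : ∀ c, (if P c then ∑ e, (if Q e ∧ col e = c then x e else 0) else 0) =
      ∑ e, if Q e ∧ P (col e) ∧ col e = c then x e else 0 := by
    intro c
    split_ifs with hP
    · apply sum_congr rfl
      intro e _
      by_cases hc : col e = c
      · subst hc
        simp [hP]
      · simp [hc]
    · symm
      apply sum_eq_zero
      intro e _
      rw [if_neg]
      rintro ⟨_, h2, h3⟩
      rw [h3] at h2
      exact hP h2
  rw [sum_congr rfl fun c _ => h c, sum_comm]
  apply sum_congr rfl
  intro e _
  by_cases hQ : Q e ∧ P (col e)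
  · rw [if_pos hQ, sum_eq_single (col e)]
    · rw [if_pos ⟨hQ.1, hQ.2, rfl⟩]
    · intro c _ hc
      rw [if_neg]
      rintro ⟨_, _, h⟩
      exact hc h.symm
    · intro h
      exact absurd (mem_univ _) h
  · rw [if_neg hQ]
    apply sum_eq_zero
    intro c _
    rw [if_neg]
    rintro ⟨h2, h3, _⟩
    exact hQ ⟨h2, h3⟩

end Net

section Flow
variable {A C ι : Type} [Fintype A] [Fintype C] [Fintype ι] [DecidableEq A] [DecidableEq C]
  [DecidableEq ι]

/-- Integral selection. -/
theorem flow (s : A → Bool) (nv : A → C → Bool) (a0 a1 : ι → A) (col : ι → C)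
    (h0 : ∀ e, s (a0 e) = false) (h1 : ∀ e, s (a1 e) = true) (x : ι → ℝ) (hx0 : ∀ e, 0 ≤ x e)
    (hx1 : ∀ e, x e ≤ 1) (gg MM : A → ℕ)
    (hK : ∀ a c, ∑ e, (if inc a0 a1 e a ∧ col e = c then x e else 0) ≤ 1)
    (hg : ∀ a, (gg a : ℝ) ≤ ∑ e, (if inc a0 a1 e a ∧ nv a (col e) = true then x e else 0))
    (hM : ∀ a, ∑ e, (if inc a0 a1 e a then x e else 0) ≤ (MM a : ℝ)) :
    ∃ F : Finset ι, (∀ e ∈ F, 0 < x e) ∧
      (∀ a c, (F.filter (fun e => inc a0 a1 e a ∧ col e = c)).card ≤ 1) ∧
      (∀ a, gg a ≤ (F.filter (fun e => inc a0 a1 e a ∧ nv a (col e) = true)).card) ∧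
      ∀ a, (F.filter (fun e => inc a0 a1 e a)).card ≤ MM a := by
  classical
  set lo : Ar A C ι → ℤ := fun u => match u with
    | Sum.inl _ => 0
    | Sum.inr (Sum.inl a) => gg a
    | Sum.inr (Sum.inr (Sum.inl _)) => 0
    | Sum.inr (Sum.inr (Sum.inr _)) => 0 with hlo
  set hi : Ar A C ι → ℤ := fun u => match u with
    | Sum.inl a => MM a
    | Sum.inr (Sum.inl a) => MM a
    | Sum.inr (Sum.inr (Sum.inl _)) => 1
    | Sum.inr (Sum.inr (Sum.inr e)) => if 0 < x e then 1 else 0 with hhi
  set y : Ar A C ι → ℝ := fun u => match u with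
    | Sum.inl a => ∑ e, (if inc a0 a1 e a then x e else 0)
    | Sum.inr (Sum.inl a) => ∑ e, (if inc a0 a1 e a ∧ nv a (col e) = true then x e else 0)
    | Sum.inr (Sum.inr (Sum.inl ac)) =>
      ∑ e, (if inc a0 a1 e ac.1 ∧ col e = ac.2 then x e else 0)
    | Sum.inr (Sum.inr (Sum.inr e)) => x e with hy
  have hsum0 : ∀ (P : ι → Prop) [DecidablePred P], 0 ≤ ∑ e, (if P e then x e else 0) := by
    intro P _
    refine sum_nonneg fun e _ => ?_
    split_ifs
    · exact hx0 e
    · exact le_rfl
  have hle2 : ∀ a, ∑ e, (if inc a0 a1 e a ∧ nv a (col e) = true then x e else 0) ≤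
      ∑ e, (if inc a0 a1 e a then x e else 0) := by
    intro a
    apply sum_le_sum
    intro e _
    by_cases h : inc a0 a1 e a
    · by_cases h' : nv a (col e) = true
      · simp [h, h']
      · simp [h, h', hx0 e]
    · simp [h]
  obtain ⟨g, hg1, hg2⟩ := circ (tl s nv a0 a1 col) (hd s nv a0 a1 col) lo hi y (by
    rintro (a | a | ac | e)
    · simpa [hlo, hy] using hsum0 _
    · simpa [hlo, hy] using hg a
    · simpa [hlo, hy] using hsum0 _
    · simpa [hlo, hy] using hx0 e) (by
    rintro (a | a | ac | e)
    · simpa [hhi, hy] using hM a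
    · have := (hle2 a).trans (hM a)
      simpa [hhi, hy] using this
    · simpa [hhi, hy] using hK ac.1 ac.2
    · by_cases h : 0 < x e
      · simpa [hhi, hy, h] using hx1 e
      · simpa [hhi, hy, h] using le_of_not_gt h) (by
    rintro (_ | a | a | ac)
    · have := nt_O s nv a0 a1 col y
      refine Eq.trans this ?_
      simp only [hy]
      have e1 : ∀ a, (if s a then (-1 : ℝ) else 1) * (∑ e, if inc a0 a1 e a then x e else 0) =
          ∑ e, ((if a0 e = a then x e else 0) - (if a1 e = a then x e else 0)) := by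
        intro a
        rw [mul_sum]
        apply sum_congr rfl
        intro e _
        unfold inc
        have e0 := h0 e
        have e1 := h1 e
        by_cases ha : a0 e = a
        · have hs : s a = false := by rw [← ha]; exact e0
          have h2 : a1 e ≠ a := by
            intro h
            rw [h, hs] at e1
            exact absurd e1 (by simp)
          simp [ha, h2, hs]
        · by_cases ha' : a1 e = a
          · have hs : s a = true := by rw [← ha']; exact e1
            simp [ha, ha', hs]
          · simp [ha, ha']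
      rw [sum_congr rfl fun a _ => e1 a, sum_comm]
      apply sum_eq_zero
      intro e _
      rw [sum_sub_distrib, sum_ite_eq univ (a0 e), sum_ite_eq univ (a1 e)]
      simp
    · have := nt_T s nv a0 a1 col y a
      refine Eq.trans this ?_
      simp only [hy]
      have e1 : (∑ c, if nv a c = true then (0 : ℝ) else
          ∑ e, (if inc a0 a1 e a ∧ col e = c then x e else 0)) =
          ∑ e, (if inc a0 a1 e a ∧ ¬ nv a (col e) = true then x e else 0) := by
        rw [← sum_swap (fun c => ¬ nv a c = true) (fun e => inc a0 a1 e a) col x]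
        apply sum_congr rfl
        intro c _
        by_cases h : nv a c = true <;> simp [h]
      rw [e1, ← sum_sub_distrib, ← sum_sub_distrib]
      have e2 : ∑ e, ((if inc a0 a1 e a then x e else 0) -
          (if inc a0 a1 e a ∧ nv a (col e) = true then x e else 0) -
          (if inc a0 a1 e a ∧ ¬ nv a (col e) = true then x e else 0)) = 0 := by
        apply sum_eq_zero
        intro e _
        by_cases h : inc a0 a1 e a <;> by_cases h' : nv a (col e) = true <;> simp [h, h']
      rw [e2, mul_zero]
    · have := nt_N s nv a0 a1 col y a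
      refine Eq.trans this ?_
      simp only [hy]
      have e1 := sum_swap (fun c => nv a c = true) (fun e => inc a0 a1 e a) col x
      rw [e1, sub_self, mul_zero]
    · have := nt_K' s nv a0 a1 col y h0 h1 ac.1 ac.2
      refine Eq.trans this ?_
      simp only [hy]
      rw [sub_self, mul_zero])
  have sg : ∀ a, (if s a then (1 : ℤ) else -1) ≠ 0 := by
    intro a
    split_ifs <;> norm_num
  have k1 : ∀ a c, g (Sum.inr (Sum.inr (Sum.inl (a, c)))) =
      ∑ e, (if inc a0 a1 e a ∧ col e = c then g (Sum.inr (Sum.inr (Sum.inr e))) else 0) := by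
    intro a c
    have := hg2 (nK a c)
    rw [nt_K' s nv a0 a1 col g h0 h1 a c] at this
    have := (mul_eq_zero.1 this).resolve_left (sg a)
    linarith
  have k2 : ∀ a, g (Sum.inr (Sum.inl a)) =
      ∑ e, (if inc a0 a1 e a ∧ nv a (col e) = true then g (Sum.inr (Sum.inr (Sum.inr e))) else 0) := by
    intro a
    have h2 := hg2 (nN a)
    rw [nt_N s nv a0 a1 col g a] at h2
    have h3 := (mul_eq_zero.1 h2).resolve_left (sg a)
    have h4 := sum_swap (fun c => nv a c = true) (fun e => inc a0 a1 e a) col
      (fun e => g (Sum.inr (Sum.inr (Sum.inr e))))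
    rw [← h4, sub_eq_zero.1 h3]
    apply sum_congr rfl
    intro c _
    rw [k1]
  have k3 : ∀ a, g (Sum.inl a) =
      ∑ e, (if inc a0 a1 e a then g (Sum.inr (Sum.inr (Sum.inr e))) else 0) := by
    intro a
    have h2 := hg2 (nT a)
    rw [nt_T s nv a0 a1 col g a] at h2
    have h3 := (mul_eq_zero.1 h2).resolve_left (sg a)
    have h4 : (∑ c, if nv a c = true then (0 : ℤ) else g (Sum.inr (Sum.inr (Sum.inl (a, c))))) =
        ∑ e, (if inc a0 a1 e a ∧ ¬ nv a (col e) = true then
          g (Sum.inr (Sum.inr (Sum.inr e))) else 0) := by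
      rw [← sum_swap (fun c => ¬ nv a c = true) (fun e => inc a0 a1 e a) col]
      apply sum_congr rfl
      intro c _
      rw [k1]
      by_cases h : nv a c = true <;> simp [h]
    rw [h4, k2, sub_sub, sub_eq_zero, ← sum_add_distrib] at h3
    rw [h3]
    apply sum_congr rfl
    intro e _
    by_cases h : inc a0 a1 e a <;> by_cases h' : nv a (col e) = true <;> simp [h, h']
  have g01 : ∀ e, g (Sum.inr (Sum.inr (Sum.inr e))) =
      if g (Sum.inr (Sum.inr (Sum.inr e))) = 1 then 1 else 0 := by
    intro e
    have h2 := hg1 (Sum.inr (Sum.inr (Sum.inr e)))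
    simp only [hlo, hhi] at h2
    split_ifs at h2 ⊢ <;> omega
  set F : Finset ι := univ.filter (fun e => g (Sum.inr (Sum.inr (Sum.inr e))) = 1) with hF
  have hcard : ∀ (P : ι → Prop) [DecidablePred P],
      ∑ e, (if P e then g (Sum.inr (Sum.inr (Sum.inr e))) else 0) = ((F.filter P).card : ℤ) := by
    intro P _
    rw [card_filter, hF, sum_filter]
    push_cast
    apply sum_congr rfl
    intro e _
    have g2 := g01 e
    by_cases h : P e
    · rw [if_pos h, if_pos h]
      by_cases h1 : g (Sum.inr (Sum.inr (Sum.inr e))) = 1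
      · rw [if_pos h1]
        exact h1
      · rw [if_neg h1]
        rw [if_neg h1] at g2
        exact g2
    · simp [h]
  refine ⟨F, ?_, ?_, ?_, ?_⟩
  · intro e he
    rw [hF, mem_filter] at he
    have h2 := (hg1 (Sum.inr (Sum.inr (Sum.inr e)))).2
    simp only [hhi] at h2
    by_contra hcon
    rw [if_neg hcon, he.2] at h2
    omega
  · intro a c
    have h2 := (hg1 (Sum.inr (Sum.inr (Sum.inl (a, c))))).2
    rw [k1, hcard] at h2
    simp only [hhi] at h2
    exact_mod_cast h2
  · intro a
    have h2 := (hg1 (Sum.inr (Sum.inl a))).1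
    rw [k2, hcard] at h2
    simp only [hlo] at h2
    exact_mod_cast h2
  · intro a
    have h2 := (hg1 (Sum.inl a)).2
    rw [k3, hcard] at h2
    simp only [hhi] at h2
    exact_mod_cast h2

end Flow

end Pool.Agent.Run7.h320.T
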