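import Mathlib

/-!
# Independent random choices from finite sets: union bound and exponential tails
-/

set_option autoImplicit false

namespace Pool.Agent.Run7.h320.T

open Finset

section
variable {I Ω : Type} [Fintype I] [DecidableEq I] [Fintype Ω]

/-- the weight of a point of the product space -/
noncomputable def wt (p : I → Ω → ℝ) (ω : I → Ω) : ℝ := ∏ i, p i (ω i)

open Classical in
/-- the probability of an event -/
noncomputable def prob (p : I → Ω → ℝ) (A : (I → Ω) → Prop) : ℝ :=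
  ∑ ω ∈ univ.filter A, wt p ω

/-- a product probability space -/
structure IsP (p : I → Ω → ℝ) : Prop where
  nn : ∀ i x, 0 ≤ p i x
  one : ∀ i, ∑ x, p i x = 1

variable {p : I → Ω → ℝ}

theorem wt_nonneg (hp : IsP p) (ω : I → Ω) : 0 ≤ wt p ω := prod_nonneg fun i _ => hp.nn i _

theorem sum_wt (hp : IsP p) : ∑ ω, wt p ω = 1 := by
  unfold wt
  rw [← Fintype.piFinset_univ, ← Finset.prod_univ_sum]
  simp [hp.one]

/-- expectation of a product -/
theorem sum_wt_prod (g : I → Ω → ℝ) :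
    ∑ ω : I → Ω, wt p ω * ∏ i, g i (ω i) = ∏ i, ∑ x, p i x * g i x := by
  unfold wt
  simp_rw [← Finset.prod_mul_distrib]
  rw [← Fintype.piFinset_univ]
  exact (Finset.prod_univ_sum (fun _ => univ) (fun i x => p i x * g i x)).symm

/-- expectation of a function of one coordinate -/
theorem sum_wt_one (hp : IsP p) (i : I) (g : Ω → ℝ) :
    ∑ ω : I → Ω, wt p ω * g (ω i) = ∑ x, p i x * g x := by
  classical
  have h := sum_wt_prod (p := p) (fun j x => if j = i then g x else 1)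
  have h1 : ∀ ω : I → Ω, (∏ j, if j = i then g (ω j) else 1) = g (ω i) := by
    intro ω
    rw [Finset.prod_ite_eq' univ i (fun j => g (ω j)), if_pos (mem_univ _)]
  simp_rw [h1] at h
  rw [h, ← Finset.prod_erase_mul _ _ (mem_univ i)]
  have h2 : ∏ j ∈ univ.erase i, ∑ x, p j x * (if j = i then g x else 1) = 1 := by
    apply Finset.prod_eq_one
    intro j hj
    simp only [if_neg (ne_of_mem_erase hj), mul_one]
    exact hp.one j
  rw [h2, one_mul]
  simp

theorem prob_nonneg (hp : IsP p) (A : (I → Ω) → Prop) : 0 ≤ prob p A :=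
  sum_nonneg fun ω _ => wt_nonneg hp ω

theorem prob_mono (hp : IsP p) {A B : (I → Ω) → Prop} (h : ∀ ω, A ω → B ω) :
    prob p A ≤ prob p B := by
  classical
  unfold prob
  refine sum_le_sum_of_subset_of_nonneg ?_ (fun ω _ _ => wt_nonneg hp ω)
  intro ω
  simp only [mem_filter, mem_univ, true_and]
  exact h ω

theorem prob_or (hp : IsP p) (A B : (I → Ω) → Prop) :
    prob p (fun ω => A ω ∨ B ω) ≤ prob p A + prob p B := by
  classical
  unfold prob
  have e : univ.filter (fun ω => A ω ∨ B ω) = univ.filter A ∪ univ.filter B := by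
    ext
    simp
  have e2 : ∀ s : Finset (I → Ω), s = univ.filter (fun ω => A ω ∨ B ω) → ∑ ω ∈ s, wt p ω =
      ∑ ω ∈ univ.filter A ∪ univ.filter B, wt p ω := fun s hs => by rw [hs, e]
  rw [e2 _ (by ext; simp)]
  have := sum_union_inter (s₁ := univ.filter A) (s₂ := univ.filter B) (f := wt p)
  have h2 : 0 ≤ ∑ ω ∈ univ.filter A ∩ univ.filter B, wt p ω :=
    sum_nonneg fun ω _ => wt_nonneg hp ω
  linarith

theorem prob_ex (hp : IsP p) {K : Type} (s : Finset K) (A : K → (I → Ω) → Prop) :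
    prob p (fun ω => ∃ k ∈ s, A k ω) ≤ ∑ k ∈ s, prob p (A k) := by
  classical
  induction s using Finset.induction_on with
  | empty =>
    have : prob p (fun ω => ∃ k ∈ (∅ : Finset K), A k ω) = 0 := by
      unfold prob
      apply sum_eq_zero
      intro ω hω
      simp at hω
    rw [this, sum_empty]
  | insert a s ha ih =>
    rw [sum_insert ha]
    refine le_trans (prob_mono hp (B := fun ω => A a ω ∨ ∃ k ∈ s, A k ω) ?_)
      ((prob_or hp _ _).trans (by linarith))
    intro ω h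
    obtain ⟨k, hk, hk'⟩ := h
    rcases mem_insert.1 hk with rfl | hk
    · exact Or.inl hk'
    · exact Or.inr ⟨k, hk, hk'⟩

theorem prob_ex_le (hp : IsP p) {K : Type} (s : Finset K) (A : K → (I → Ω) → Prop) (β : ℝ)
    (h : ∀ k ∈ s, prob p (A k) ≤ β) :
    prob p (fun ω => ∃ k ∈ s, A k ω) ≤ s.card * β := by
  refine (prob_ex hp s A).trans ((sum_le_card_nsmul _ _ _ h).trans ?_)
  rw [nsmul_eq_mul]

theorem exists_of_prob (hp : IsP p) (A : (I → Ω) → Prop) (h : prob p A < 1) :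
    ∃ ω, ¬ A ω ∧ ∀ i, 0 < p i (ω i) := by
  classical
  by_contra hcon
  push Not at hcon
  have h1 : ∑ ω, wt p ω ≤ prob p A := by
    unfold prob
    rw [sum_filter]
    apply sum_le_sum
    intro ω _
    by_cases hA : A ω
    · rw [if_pos hA]
    · rw [if_neg hA]
      obtain ⟨i, hi⟩ := hcon ω hA
      have : p i (ω i) = 0 := le_antisymm hi (hp.nn _ _)
      unfold wt
      rw [Finset.prod_eq_zero (mem_univ i) this]
  rw [sum_wt hp] at h1
  linarith

/-- Markov's inequality -/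
theorem markov (hp : IsP p) (A : (I → Ω) → Prop) (Φ : (I → Ω) → ℝ) (h0 : ∀ ω, 0 ≤ Φ ω)
    (h1 : ∀ ω, A ω → 1 ≤ Φ ω) : prob p A ≤ ∑ ω, wt p ω * Φ ω := by
  classical
  unfold prob
  rw [sum_filter]
  apply sum_le_sum
  intro ω _
  by_cases hA : A ω
  · rw [if_pos hA]
    have := wt_nonneg hp ω
    nlinarith [h1 ω hA]
  · rw [if_neg hA]
    exact mul_nonneg (wt_nonneg hp ω) (h0 ω)

/-- the mean of a sum of functions of the coordinates -/
noncomputable def mean (p : I → Ω → ℝ) (a : I → Ω → ℝ) : ℝ := ∑ i, ∑ x, p i x * a i x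

theorem mean_eq (hp : IsP p) (a : I → Ω → ℝ) :
    ∑ ω : I → Ω, wt p ω * ∑ i, a i (ω i) = mean p a := by
  unfold mean
  simp_rw [mul_sum]
  rw [sum_comm]
  exact sum_congr rfl fun i _ => sum_wt_one hp i (a i)

/-- first moment bound -/
theorem first (hp : IsP p) (a : I → Ω → ℝ) (ha : ∀ i x, 0 ≤ a i x) (T : ℝ) (hT : 0 < T) :
    prob p (fun ω => T ≤ ∑ i, a i (ω i)) ≤ mean p a / T := by
  refine (markov hp _ (fun ω => (∑ i, a i (ω i)) / T) (fun ω => ?_) (fun ω h => ?_)).trans ?_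
  · exact div_nonneg (sum_nonneg fun i _ => ha i _) hT.le
  · rw [le_div_iff₀ hT]
    linarith
  · rw [← mean_eq hp a, sum_div]
    apply le_of_eq
    exact sum_congr rfl fun ω _ => by ring

/-- exponential Markov inequality -/
theorem expm (hp : IsP p) (a : I → Ω → ℝ) (lam T : ℝ) :
    prob p (fun ω => lam * T ≤ lam * ∑ i, a i (ω i)) ≤
      Real.exp (-(lam * T)) * ∏ i, ∑ x, p i x * Real.exp (lam * a i x) := by
  refine (markov hp _ (fun ω => Real.exp (-(lam * T)) * ∏ i, Real.exp (lam * a i (ω i)))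
    (fun ω => by positivity) (fun ω h => ?_)).trans (le_of_eq ?_)
  · rw [← Real.exp_sum, ← Real.exp_add, Real.one_le_exp_iff, ← mul_sum]
    linarith
  · rw [← sum_wt_prod, mul_sum]
    exact sum_congr rfl fun ω _ => by ring

theorem exp_quad {y : ℝ} (h : |y| ≤ 1) : Real.exp y ≤ 1 + y + y ^ 2 := by
  have h1 := Real.abs_exp_sub_one_sub_id_le h
  have h2 := (abs_le.1 h1).2
  linarith

/-- the moment generating function of a bounded function -/
theorem mgf {q : Ω → ℝ} (hq : ∀ x, 0 ≤ q x) (hq1 : ∑ x, q x = 1) (a : Ω → ℝ) (M lam : ℝ)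
    (ha0 : ∀ x, 0 ≤ a x) (haM : ∀ x, a x ≤ M) (hM : |lam| * M ≤ 1) :
    ∑ x, q x * Real.exp (lam * a x) ≤
      Real.exp ((lam + lam ^ 2 * M) * ∑ x, q x * a x) := by
  have h1 : ∀ x, Real.exp (lam * a x) ≤ 1 + (lam + lam ^ 2 * M) * a x := by
    intro x
    have h2 : |lam * a x| ≤ 1 := by
      rw [abs_mul, abs_of_nonneg (ha0 x)]
      exact (mul_le_mul_of_nonneg_left (haM x) (abs_nonneg _)).trans hM
    have h3 := exp_quad h2
    have h4 : (lam * a x) ^ 2 ≤ lam ^ 2 * M * a x := by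
      have : 0 ≤ lam ^ 2 * a x * (M - a x) :=
        mul_nonneg (mul_nonneg (sq_nonneg _) (ha0 x)) (by linarith [haM x])
      nlinarith
    nlinarith
  have h2 : ∑ x, q x * Real.exp (lam * a x) ≤ 1 + (lam + lam ^ 2 * M) * ∑ x, q x * a x := by
    calc _ ≤ ∑ x, q x * (1 + (lam + lam ^ 2 * M) * a x) :=
          sum_le_sum fun x _ => mul_le_mul_of_nonneg_left (h1 x) (hq x)
      _ = _ := by
        rw [mul_sum]
        simp_rw [mul_add, mul_one]
        rw [sum_add_distrib, hq1]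
        congr 1
        exact sum_congr rfl fun x _ => by ring
  refine h2.trans ?_
  have := Real.add_one_le_exp ((lam + lam ^ 2 * M) * ∑ x, q x * a x)
  linarith

theorem mgf_prod (hp : IsP p) (a : I → Ω → ℝ) (M lam : ℝ)
    (ha0 : ∀ i x, 0 ≤ a i x) (haM : ∀ i x, a i x ≤ M) (hM : |lam| * M ≤ 1) :
    ∏ i, ∑ x, p i x * Real.exp (lam * a i x) ≤ Real.exp ((lam + lam ^ 2 * M) * mean p a) := by
  unfold mean
  rw [mul_sum, Real.exp_sum]
  apply prod_le_prod
  · intro i _
    exact sum_nonneg fun x _ => mul_nonneg (hp.nn i x) (Real.exp_pos _).le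
  · intro i _
    exact mgf (hp.nn i) (hp.one i) (a i) M lam (ha0 i) (haM i) hM

/-- upper tail -/
theorem up (hp : IsP p) (a : I → Ω → ℝ) (M μ dev : ℝ) (hM : 0 < M) (hμ : 0 < μ) (hd : 0 ≤ dev)
    (ha0 : ∀ i x, 0 ≤ a i x) (haM : ∀ i x, a i x ≤ M) (hm : mean p a ≤ μ) (hdμ : dev ≤ 2 * μ) :
    prob p (fun ω => mean p a + dev ≤ ∑ i, a i (ω i)) ≤ Real.exp (-(dev ^ 2 / (4 * M * μ))) := by
  obtain ⟨lam, hlam⟩ : ∃ lam, lam = dev / (2 * M * μ) := ⟨_, rfl⟩
  have hl0 : 0 ≤ lam := by rw [hlam]; positivity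
  have hl1 : |lam| * M ≤ 1 := by
    rw [abs_of_nonneg hl0, hlam, div_mul_eq_mul_div, div_le_one (by positivity)]
    nlinarith
  have h1 := expm hp a lam (mean p a + dev)
  have h2 := mgf_prod hp a M lam ha0 haM hl1
  refine (prob_mono hp (fun ω h => ?_)).trans (h1.trans ?_)
  · exact mul_le_mul_of_nonneg_left h hl0
  · refine (mul_le_mul_of_nonneg_left h2 (Real.exp_pos _).le).trans ?_
    rw [← Real.exp_add, Real.exp_le_exp]
    have h3 : lam ^ 2 * M * mean p a ≤ lam ^ 2 * M * μ :=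
      mul_le_mul_of_nonneg_left hm (by positivity)
    have h4 : lam ^ 2 * M * μ - lam * dev = -(dev ^ 2 / (4 * M * μ)) := by
      rw [hlam]
      field_simp
      ring
    nlinarith

/-- lower tail -/
theorem dn (hp : IsP p) (a : I → Ω → ℝ) (M μ dev : ℝ) (hM : 0 < M) (hμ : 0 < μ) (hd : 0 ≤ dev)
    (ha0 : ∀ i x, 0 ≤ a i x) (haM : ∀ i x, a i x ≤ M) (hm : mean p a ≤ μ) (hdμ : dev ≤ 2 * μ) :
    prob p (fun ω => ∑ i, a i (ω i) ≤ mean p a - dev) ≤ Real.exp (-(dev ^ 2 / (4 * M * μ))) := by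
  obtain ⟨lam, hlam⟩ : ∃ lam, lam = dev / (2 * M * μ) := ⟨_, rfl⟩
  have hl0 : 0 ≤ lam := by rw [hlam]; positivity
  have hl1 : |(-lam)| * M ≤ 1 := by
    rw [abs_neg, abs_of_nonneg hl0, hlam, div_mul_eq_mul_div, div_le_one (by positivity)]
    nlinarith
  have h1 := expm hp a (-lam) (mean p a - dev)
  have h2 := mgf_prod hp a M (-lam) ha0 haM hl1
  refine (prob_mono hp (fun ω h => ?_)).trans (h1.trans ?_)
  · have := mul_le_mul_of_nonneg_left h hl0
    linarith
  · refine (mul_le_mul_of_nonneg_left h2 (Real.exp_pos _).le).trans ?_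
    rw [← Real.exp_add, Real.exp_le_exp]
    have h3 : lam ^ 2 * M * mean p a ≤ lam ^ 2 * M * μ :=
      mul_le_mul_of_nonneg_left hm (by positivity)
    have h4 : lam ^ 2 * M * μ - lam * dev = -(dev ^ 2 / (4 * M * μ)) := by
      rw [hlam]
      field_simp
      ring
    nlinarith

end

end Pool.Agent.Run7.h320.T
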